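import Pool.Agent.H86.DlC

set_option autoImplicit false

namespace Pool.Agent.Results.MP_785f4e_co.Differ

open Pool.Agent.H86.Surv Filter

theorem result : ∃ (V : Type) (G : SimpleGraph V), Infinite V ∧ G.Connected ∧
    (∀ v, (G.neighborSet v).Finite) ∧ VertexTransitive G ∧ survival G ≤ 6 ∧
    Tendsto (minCells G) atTop atTop :=
  ⟨DL.Y, DL.Gd, inferInstance, DL.conn, DL.locfin, DL.vt, DL.survival_le, DL.tendsto_min⟩

end Pool.Agent.Results.MP_785f4e_co.Differ
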